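import Pool.Agent.helper62.MS.SpecD
import Pool.Agent.helper80.EN.FNC

/-!
# MP_07c750_an, project MS: the robust form of maximal scarring (row MSR, helper1)

THEOREM (MSR). Let `M` be a closed hyperbolic surface, `V` a continuous function on `M` with values in `[0, 1]` and `ε > 0`. There is `α > 0`, which depends only
on `M`, `V` and `ε`, such that for every weak limit `ν` of `|φ_k|² dz` (`φ_k` normalised eigenfunctions with eigenvalues `→ ∞`) and every Borel set `E` with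
`(1 + α)`-dimensional Hausdorff measure zero: `∫ V dν ≥ ν(E) · mean(V) - ε`.

PROOF. `MS1` (for `V`, `ε/8`) gives `a`, `δ`, `n1`; it needs only `|A| ≤ e^(δn)`. Take `α = min δ (1/2)`. The part of the lift `μ` over `E` has local entropy `≤ α/2`, so
(row EZ2 with `δ/2`) it is covered up to `δ/2` by `e^((α/2 + δ/2) n) ≤ e^(δ n)` boxes. The rest is as in row CRE.
-/

set_option autoImplicit false

open scoped MatrixGroups ContDiff Topology UpperHalfPlane ComplexConjugate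
open UpperHalfPlane MeasureTheory Filter Set

namespace Pool.Agent.MS

open Pool.Agent.RS
open Pool.Agent.EN (XG MG mkX mkM fl pr)

/-- **Row MSR** -/
def MSR_stmt : Prop := ∀ (Γ : Subgroup SL(2, ℝ)) (F : Set ℍ) (V : MG Γ → ℝ) (ε : ℝ), QU.SurfaceGroup Γ →
  IsFundamentalDomain Γ F (volume : Measure ℍ) → Continuous V → (∀ x, 0 ≤ V x ∧ V x ≤ 1) → 0 < ε →
  ∃ α : ℝ, 0 < α ∧ α < 1 ∧ ∀ (r : ℕ → ℝ) (φ : ℕ → ℍ → ℂ) (ν : Measure (MG Γ)) (E : Set (MG Γ)), Tendsto r atTop atTop →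
    (∀ k, Eig Γ (r k) (φ k)) → (∀ k, ∫ z in F, ‖φ k z‖ ^ 2 = 1) → IsFiniteMeasure ν →
    (∀ V : MG Γ → ℝ, Continuous V → Tendsto (fun k => ∫ z in F, V (mkM Γ z) * ‖φ k z‖ ^ 2) atTop (𝓝 (∫ x, V x ∂ν))) → MeasurableSet E →
    Measure.hausdorffMeasure (1 + α) {z : ℍ | mkM Γ z ∈ E} = 0 →
      ν.real E * ((∫ z in F, V (mkM Γ z)) / (volume F).toReal) ≤ ∫ x, V x ∂ν + ε

theorem MSR_num {m M0 M1 I0 I1 J e ε : ℝ} (hm0 : 0 ≤ m) (hm1 : m ≤ 1) (hM1 : M0 ≤ 1)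
    (he : e ≤ ε / 8) (he0 : 0 < e) (h1 : (M0 - e) * (m - e) ≤ J + e) (h2 : J ≤ I1 + e)
    (h3 : I1 ≤ I0 + ε / 8) (h4 : M1 ≤ M0 + ε / 8) : m * M1 ≤ I0 + ε := by
  have a1 : (M0 - e) * (m - e) = m * M0 - e * M0 - e * m + e * e := by ring
  have a2 : e * M0 ≤ e * 1 := mul_le_mul_of_nonneg_left hM1 he0.le
  have a3 : e * m ≤ e * 1 := mul_le_mul_of_nonneg_left hm1 he0.le
  have a4 : 0 < e * e := mul_pos he0 he0
  have a5 : m * M1 ≤ m * (M0 + ε / 8) := mul_le_mul_of_nonneg_left h4 hm0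
  have a6 : m * (ε / 8) ≤ 1 * (ε / 8) := mul_le_mul_of_nonneg_right hm1 (by linarith)
  have a7 : m * (M0 + ε / 8) = m * M0 + m * (ε / 8) := by ring
  linarith

theorem MSR_proof (hXFL : EN.XFL_stmt) (hSTB : STB_stmt) (hMU : MU_stmt) (hEZ2 : EZ2_stmt) (hMS1 : MS1_stmt) :
    MSR_stmt := by
  intro Γ F V ε hΓ hFD hV h01 hε
  obtain ⟨F₀, hF₀⟩ := QU.A_DOM Γ hΓ
  obtain ⟨-, hFD₀, hvol0, hvolt, hdom, -⟩ := QU.A_DOB Γ F₀ hΓ hF₀
  obtain ⟨hvF, hintF⟩ := hdom F hFD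
  obtain ⟨hflow, hpr, hmkX, homX, hsX, hmkM, homM, hsM, hfm, hpm, heqX, heqM⟩ := hXFL Γ
  have hinvM : ∀ (W : MG Γ → ℝ), Continuous W → QU.Inv Γ (fun z => W (mkM Γ z)) := fun W hW =>
    ⟨hW.comp hmkM, fun γ z => by
      have : mkM Γ (γ • z) = mkM Γ z := ((heqM z (γ • z)).2 ⟨γ, rfl⟩).symm
      exact congrArg W this⟩
  -- smoothing
  obtain ⟨h', hi, hCD, happ, h01'⟩ := RS.ESM Γ (fun z => V (mkM Γ z)) 0 1 (ε / 8) hΓ
    (hinvM V hV) (fun z => h01 _) (by linarith)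
  have hlift : ∀ a b : ℍ, (MulAction.orbitRel Γ ℍ) a b → h' a = h' b := by
    rintro a b ⟨γ, hγ⟩
    have hγ' : γ • b = a := hγ
    rw [← hγ', hi.2 γ b]
  obtain ⟨V', hV'⟩ : ∃ V' : MG Γ → ℝ, V' = Quotient.lift h' hlift := ⟨_, rfl⟩
  have hV'c : Continuous V' := by rw [hV']; exact hi.1.quotient_lift hlift
  have hV'm : ∀ z, V' (mkM Γ z) = h' z := fun z => by rw [hV']; rfl
  have hV'01 : ∀ x, 0 ≤ V' x ∧ V' x ≤ 1 := by
    intro x
    obtain ⟨z, rfl⟩ := hsM x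
    rw [hV'm]
    exact h01' z
  have hV'a : ∀ x, |V' x - V x| ≤ ε / 8 := by
    intro x
    obtain ⟨z, rfl⟩ := hsM x
    rw [hV'm]
    exact happ z
  -- packets and the main estimate
  obtain ⟨β, hβ⟩ := (hSTB.2.2.2.2.2 (1 / 4) (by norm_num)).2
  obtain ⟨α₀, hα₀⟩ := (hSTB.2.2.2.2.2 (1 / 8) (by norm_num)).1
  obtain ⟨e, he⟩ : ∃ e : ℝ, e = min (ε / 8) 1 := ⟨_, rfl⟩
  have he0 : 0 < e := by rw [he]; exact lt_min (by linarith) one_pos
  have he1 : e ≤ 1 := by rw [he]; exact min_le_right _ _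
  have he8 : e ≤ ε / 8 := by rw [he]; exact min_le_left _ _
  obtain ⟨a, δ, n1, ha, hδ, hδe, hmain⟩ := hMS1 Γ F₀ h' β α₀ hΓ hF₀ hi hCD h01' hβ hα₀ e he0 he1
  refine ⟨min δ (1 / 2), lt_min hδ (by norm_num), lt_of_le_of_lt (min_le_right _ _) (by norm_num), ?_⟩
  intro r φ ν E hr hφ hn hν hlim hE hH
  -- the data on the nice domain
  have hn0 : ∀ k, nn F₀ (φ k) = 1 := by
    intro k
    unfold nn
    rw [← hintF (fun z => ‖φ k z‖ ^ 2) (fun γ z => by rw [(hφ k).2.1 γ z])]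
    exact hn k
  have hlim0 : ∀ W : MG Γ → ℝ, Continuous W →
      Tendsto (fun k => ∫ z in F₀, W (mkM Γ z) * ‖φ k z‖ ^ 2) atTop (𝓝 (∫ x, W x ∂ν)) := by
    intro W hW
    refine (hlim W hW).congr fun k => ?_
    exact hintF (fun z => W (mkM Γ z) * ‖φ k z‖ ^ 2)
      (fun γ z => by
        have e1 : W (mkM Γ (γ • z)) = W (mkM Γ z) := (hinvM W hW).2 γ z
        rw [(hφ k).2.1 γ z, e1])
  obtain ⟨μ, hμ, hinv, hprμ, hfreq⟩ := hMU Γ F₀ β α₀ r φ ν hΓ hF₀ hβ hα₀ hr hφ hn0 hν hlim0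
  have hνp : IsProbabilityMeasure ν := by
    rw [← hprμ]
    exact Measure.isProbabilityMeasure_map hpr.aemeasurable
  have hm : μ.real (pr Γ ⁻¹' E) = ν.real E := by
    rw [← hprμ, measureReal_def, measureReal_def, Measure.map_apply hpr.measurable hE]
  -- few boxes
  have hsmall : LL.Small Γ (min δ (1 / 2)) E :=
    Or.inr ⟨lt_of_le_of_lt (min_le_right _ _) (by norm_num), hH⟩
  obtain ⟨n0, hn0'⟩ := hEZ2 Γ μ E (min δ (1 / 2)) hΓ hμ hinv hE (lt_min hδ (by norm_num))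
    ((min_le_right _ _).trans (by norm_num)) hsmall a ha (δ / 2) (by linarith)
  obtain ⟨A, hA1, hA2⟩ := hn0' (max n0 n1) (le_max_left _ _)
  have hA3 : (A.card : ℝ) ≤ Real.exp (δ * ((max n0 n1 : ℕ) : ℝ)) := by
    refine hA1.trans (Real.exp_le_exp.2 (mul_le_mul_of_nonneg_right ?_ (Nat.cast_nonneg _)))
    have := min_le_left δ (1 / 2)
    linarith
  obtain ⟨Ψ, r2, hΨi, hΨ01, hΨ1, hr2, hest⟩ := hmain (max n0 n1) (le_max_right _ _) A hA3
  -- descend to X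
  have hliftX : ∀ g g' : SL(2, ℝ), (MulAction.orbitRel Γ SL(2, ℝ)) g g' → Ψ g = Ψ g' := by
    rintro g g' ⟨γ, hγ⟩
    have hγ' : (γ : SL(2, ℝ)) * g' = g := hγ
    rw [← hγ', hΨi.2 γ g']
  obtain ⟨Ψ', hΨ'⟩ : ∃ Ψ' : XG Γ → ℝ, Ψ' = Quotient.lift Ψ hliftX := ⟨_, rfl⟩
  have hΨ'c : Continuous Ψ' := by rw [hΨ']; exact hΨi.1.quotient_lift hliftX
  have hΨ'm : ∀ g, Ψ' (mkX Γ g) = Ψ g := fun g => by rw [hΨ']; rfl
  have hΨ'01 : ∀ x, 0 ≤ Ψ' x ∧ Ψ' x ≤ 1 := by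
    intro x
    obtain ⟨g, rfl⟩ := hsX x
    rw [hΨ'm]
    exact hΨ01 g
  have hΨ'1 : ∀ x, (∃ y ∈ A, ∃ h : SL(2, ℝ), bq a a (a * Real.exp (-((max n0 n1 : ℕ) : ℝ))) h ∧ x = mkX Γ (y * h)) →
      Ψ' x = 1 := by
    rintro x ⟨y, hy, h, hh, rfl⟩
    rw [hΨ'm]
    refine hΨ1 _ ⟨y, hy, 1, ?_⟩
    have : y⁻¹ * ((1 : Γ) : SL(2, ℝ)) * (y * h) = h := by
      rw [Subgroup.coe_one]; group
    rw [this]
    exact hh
  have hiΨ : Integrable Ψ' μ := EN.FNC_int μ _ hΨ'c hΨ'01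
  have hclosed : MeasurableSet {x | Ψ' x = 1} := measurableSet_eq_fun hΨ'c.measurable measurable_const
  have hge : μ.real {x | ∃ y ∈ A, ∃ h : SL(2, ℝ), bq a a (a * Real.exp (-((max n0 n1 : ℕ) : ℝ))) h ∧ x = mkX Γ (y * h)} ≤
      ∫ x, Ψ' x ∂μ := by
    have e1 : μ.real {x | ∃ y ∈ A, ∃ h : SL(2, ℝ), bq a a (a * Real.exp (-((max n0 n1 : ℕ) : ℝ))) h ∧ x = mkX Γ (y * h)} ≤
        μ.real {x | Ψ' x = 1} := measureReal_mono (fun x hx => hΨ'1 x hx)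
    have e2 : μ.real {x | Ψ' x = 1} = ∫ x, ({x | Ψ' x = 1}).indicator (fun _ => (1 : ℝ)) x ∂μ := by
      rw [integral_indicator hclosed, setIntegral_const, smul_eq_mul, mul_one]
    have e3 : ∫ x, ({x | Ψ' x = 1}).indicator (fun _ => (1 : ℝ)) x ∂μ ≤ ∫ x, Ψ' x ∂μ := by
      refine integral_mono ((integrable_const (1 : ℝ)).indicator hclosed) hiΨ fun x => ?_
      by_cases hx : x ∈ {x | Ψ' x = 1}
      · rw [indicator_of_mem hx]
        exact le_of_eq hx.symm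
      · rw [indicator_of_notMem hx]
        exact (hΨ'01 x).1
    linarith
  have hm0 : 0 ≤ ν.real E := measureReal_nonneg
  have hm1 : ν.real E ≤ 1 := measureReal_le_one
  have hlt : ν.real E - 2 * δ < ∫ x, Ψ' x ∂μ := by
    rw [hm] at hA2
    linarith
  have hfr := hfreq Ψ' (ν.real E - 2 * δ) hΨ'c hlt
  -- pick k
  have hev1 : ∀ᶠ k in atTop, r2 ≤ r k := hr.eventually_ge_atTop r2
  have hev2 : ∀ᶠ k in atTop, ∫ z in F₀, V' (mkM Γ z) * ‖φ k z‖ ^ 2 < ∫ x, V' x ∂ν + e :=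
    (hlim0 V' hV'c).eventually (gt_mem_nhds (by linarith))
  obtain ⟨k, ⟨t, ht1, ht2, hk⟩, hk1, hk2⟩ := (hfr.and_eventually (hev1.and hev2)).exists
  have ca := QU.A_CA1 ℂ
  have hL : EigL Γ (1 / 4 + r k ^ 2) (φ k) :=
    ⟨ca.2.1 _ 2 ∞ (WithTop.coe_le_coe.2 le_top) (hφ k).1, (hφ k).2.1, (hφ k).2.2⟩
  simp only [hΨ'm] at hk
  have hfin := hest (r k) (ν.real E) t (φ k) hk1 hL (hn0 k) hm0 hm1 ht1 ht2 hk
  -- numbers
  have hvp : 0 < (volume F₀).toReal := ENNReal.toReal_pos hvol0.ne' hvolt.ne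
  have hI0 : (fun z => h' z * ‖φ k z‖ ^ 2) = fun z => V' (mkM Γ z) * ‖φ k z‖ ^ 2 := by
    funext z; rw [hV'm]
  rw [hI0] at hfin
  have : IsFiniteMeasure ((volume : Measure ℍ).restrict F₀) := ⟨by
    rw [Measure.restrict_apply_univ]; exact hvolt⟩
  have ih' : Integrable h' ((volume : Measure ℍ).restrict F₀) := by
    refine Integrable.of_bound hi.1.aestronglyMeasurable 1 (Eventually.of_forall fun z => ?_)
    rw [Real.norm_eq_abs, abs_of_nonneg (h01' z).1]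
    exact (h01' z).2
  have iV : Integrable (fun z => V (mkM Γ z)) ((volume : Measure ℍ).restrict F₀) := by
    refine Integrable.of_bound (hV.comp hmkM).aestronglyMeasurable 1 (Eventually.of_forall fun z => ?_)
    rw [Real.norm_eq_abs, abs_of_nonneg (h01 _).1]
    exact (h01 _).2
  have hvr : ((volume : Measure ℍ).restrict F₀).real univ = (volume F₀).toReal := by
    rw [measureReal_def, Measure.restrict_apply_univ]
  have hM0 : 0 ≤ (∫ z in F₀, h' z) / (volume F₀).toReal :=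
    div_nonneg (integral_nonneg fun z => (h01' z).1) hvp.le
  have hM1 : (∫ z in F₀, h' z) / (volume F₀).toReal ≤ 1 := by
    rw [div_le_one hvp]
    have : ∫ z in F₀, h' z ≤ ∫ _z in F₀, (1 : ℝ) :=
      integral_mono ih' (integrable_const _) fun z => (h01' z).2
    rwa [integral_const, smul_eq_mul, mul_one, hvr] at this
  have hM4 : (∫ z in F, V (mkM Γ z)) / (volume F).toReal ≤
      (∫ z in F₀, h' z) / (volume F₀).toReal + ε / 8 := by
    rw [hvF, hintF (fun z => V (mkM Γ z)) (fun γ z => (hinvM V hV).2 γ z)]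
    have e1 : ∫ z in F₀, V (mkM Γ z) ≤ ∫ z in F₀, (h' z + ε / 8) := by
      refine integral_mono iV (ih'.add (integrable_const _)) fun z => ?_
      have := (abs_le.1 (happ z)).1
      show V (mkM Γ z) ≤ h' z + ε / 8
      linarith
    rw [integral_add ih' (integrable_const _), integral_const, smul_eq_mul, hvr] at e1
    have e3 : (∫ z in F₀, V (mkM Γ z)) / (volume F₀).toReal ≤
        ((∫ z in F₀, h' z) + (volume F₀).toReal * (ε / 8)) / (volume F₀).toReal :=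
      div_le_div_of_nonneg_right e1 hvp.le
    rw [add_div, mul_div_assoc, mul_comm, div_mul_cancel₀ _ hvp.ne'] at e3
    exact e3
  have i3 : Integrable V ν := EN.FNC_int ν _ hV h01
  have i4 : Integrable V' ν := EN.FNC_int ν _ hV'c hV'01
  have hI3 : ∫ x, V' x ∂ν ≤ ∫ x, V x ∂ν + ε / 8 := by
    have e1 : ∫ x, (V x + ε / 8) ∂ν = ∫ x, V x ∂ν + ε / 8 := by
      rw [integral_add i3 (integrable_const _), integral_const, probReal_univ, one_smul]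
    rw [← e1]
    refine integral_mono i4 (i3.add (integrable_const _)) fun x => ?_
    have := (abs_le.1 (hV'a x)).2
    show V' x ≤ V x + ε / 8
    linarith
  exact MSR_num hm0 hm1 hM1 he8 he0 hfin hk2.le hI3 hM4

end Pool.Agent.MS
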